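import Pool.Agent.U747.GE.Rank
import Pool.Agent.U80.MQ.ShaM

/-!
# The twists over multiquadratic number fields: points and the 2-primary part of `Ш`
-/

set_option autoImplicit false

attribute [-instance] DivisionRing.toRatAlgebra

open WeierstrassCurve

open scoped Classical

namespace Pool.Agent.U747.GE

open Pool.Agent.Y682 (wc)
open Pool.Agent.TH841.NF (Sc thS thS_ker)
open Pool.Agent.TH841.NF.D (Sha rk)
open Pool.Agent.U115.GE (twE twE_eq S_MQF S_MQR)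
open Pool.Agent.U115.XP (fin_wc)
open Pool.Agent.U80.MQ (sh_of_nf no_two_pow)

lemma twE_disc {a b : ℤ} (hb : b ≠ 0) (hab : a ^ 2 - 4 * b ≠ 0) {N : ℕ} (hN : N ≠ 0) :
    (twE a b N).Δ ≠ 0 := by
  have hNq : (N : ℚ) ≠ 0 := by exact_mod_cast hN
  have e : (twE a b N).Δ = ((16 * b ^ 2 * (a ^ 2 - 4 * b) : ℤ) : ℚ) * (N : ℚ) ^ 6 := by
    simp only [twE, wc, WeierstrassCurve.Δ, WeierstrassCurve.b₂, WeierstrassCurve.b₄,
      WeierstrassCurve.b₆, WeierstrassCurve.b₈]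
    push_cast
    ring
  rw [e]
  refine mul_ne_zero (Int.cast_ne_zero.2 ?_) (pow_ne_zero 6 hNq)
  exact mul_ne_zero (mul_ne_zero (by norm_num) (pow_ne_zero 2 hb)) hab

/-- a scaling of the model -/
theorem nf_scale {a b : ℤ} (hb : b ≠ 0) (hab : a ^ 2 - 4 * b ≠ 0) {D N : ℕ} {m g : ℚ}
    (hg : g ≠ 0) (hN : N ≠ 0) (h : m * D = N * g ^ 2)
    (hs : ∀ x : Sha (twE a b N), 2 • x = 0 → x = 0) :
    ∀ x : Sha (Pool.Agent.TH841.NF.tw m (twE a b D)), 2 • x = 0 → x = 0 := by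
  have hV : Pool.Agent.Y700.VR (Pool.Agent.TH841.NF.tw m (twE a b D)) (twE a b N) g 0 0 0 := by
    refine ⟨hg, ?_, ?_, ?_, ?_, ?_⟩
    · simp [Pool.Agent.TH841.NF.tw, twE, wc]
    · simp only [Pool.Agent.TH841.NF.tw, twE, wc]
      linear_combination (-(a : ℚ)) * h
    · simp [Pool.Agent.TH841.NF.tw, twE, wc]
    · simp only [Pool.Agent.TH841.NF.tw, twE, wc]
      have h2 : (m * D) ^ 2 = (N * g ^ 2) ^ 2 := by rw [h]
      linear_combination (-(b : ℚ)) * h2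
    · simp [Pool.Agent.TH841.NF.tw, twE, wc]
  have e2 := (Pool.Agent.Y655.XT.isoVR hV (twE_disc hb hab hN)).sha
  intro x hx
  have h2 := hs (e2.symm x) (by rw [← map_nsmul, hx, map_zero])
  exact (map_eq_zero_iff e2.symm e2.symm.injective).1 h2

/-- **the 2-primary part of `Ш` over a multiquadratic field** -/
theorem sha_K {a b : ℤ} (hb : b ≠ 0) (hab : a ^ 2 - 4 * b ≠ 0) {D n : ℕ} {m : Fin n → ℕ}
    (hD : D ≠ 0) (hm : ∀ i, m i ≠ 0)
    (h : ∀ (T : Finset (Fin n)) (N g : ℕ), Squarefree N → N * g ^ 2 = D * ∏ i ∈ T, m i →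
      ∀ x : Sha (twE a b N), 2 • x = 0 → x = 0)
    (K : Type) [Field K] [NumberField K] [Algebra ℚ K] (r : Fin n → K)
    (hr : ∀ i, r i ^ 2 = (m i : K))
    (hgen : IntermediateField.adjoin ℚ (Set.range r) = ⊤) (W : WeierstrassCurve K)
    (hW : Sc (algebraMap ℚ K) 1 (twE a b D) W) (k : ℕ)
    (x : Sha W) (hx : (2 ^ k : ℕ) • x = 0) : (2 ^ n : ℕ) • x = 0 := by
  obtain ⟨e⟩ := Pool.Agent.Y682.exists_e K
  have hd : ∀ i, ((m i : ℕ) : ℚ) ≠ 0 := by
    intro i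
    exact_mod_cast hm i
  have hr' : ∀ i, r i ^ 2 = algebraMap ℚ K ((m i : ℕ) : ℚ) := by
    intro i
    rw [hr i, map_natCast]
  refine thS_ker hW rfl rfl e hr' hd hgen x fun T => ?_
  have h0 : D * ∏ i ∈ T, m i ≠ 0 :=
    mul_ne_zero hD (Finset.prod_ne_zero_iff.2 fun i _ => hm i)
  obtain ⟨N, g, hNg, hN⟩ := Nat.sq_mul_squarefree (D * ∏ i ∈ T, m i)
  have e1 : N * g ^ 2 = D * ∏ i ∈ T, m i := by rw [← hNg, mul_comm]
  have hg : g ≠ 0 := by
    rintro rfl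
    apply h0
    rw [← e1]
    simp
  have h1 := nf_scale hb hab (D := D) (N := N) (m := ∏ i ∈ T, ((m i : ℕ) : ℚ)) (g := (g : ℚ))
    (by exact_mod_cast hg) hN.ne_zero (by
      have e2 : (N : ℚ) * (g : ℚ) ^ 2 = (D : ℚ) * ∏ i ∈ T, ((m i : ℕ) : ℚ) := by
        exact_mod_cast e1
      rw [e2, mul_comm]) (h T N g hN e1)
  exact no_two_pow (sh_of_nf h1) k _ (by rw [← map_nsmul, hx, map_zero])

/-- **finiteness and the 2-primary part of `Ш` over a multiquadratic field** -/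
theorem t_MQF : S_MQF := by
  intro a b D n m hb hab hD hm h K _ _ r hr hgen
  have hDK : (D : K) ≠ 0 := by exact_mod_cast hD
  have hbK : (b : K) * (D : K) ^ 2 ≠ 0 :=
    mul_ne_zero (by exact_mod_cast hb) (pow_ne_zero 2 hDK)
  have habK : ((a : K) * (D : K)) ^ 2 - 4 * ((b : K) * (D : K) ^ 2) ≠ 0 := by
    have e : ((a : K) * (D : K)) ^ 2 - 4 * ((b : K) * (D : K) ^ 2) =
        ((a ^ 2 - 4 * b : ℤ) : K) * (D : K) ^ 2 := by
      push_cast
      ring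
    rw [e]
    exact mul_ne_zero (by exact_mod_cast hab) (pow_ne_zero 2 hDK)
  refine ⟨?_, ?_⟩
  · refine (fin_wc K _ _ hbK habK).1 (Nat.le_zero.1 ?_)
    refine (t_MQR a b D n m hb hab hD hm (fun _ => 0) (fun T N g hN e => ?_) K r hr
      hgen).trans (by simp)
    have h1 := (h T N g hN e).1
    have hNq : (N : ℚ) ≠ 0 := by exact_mod_cast hN.ne_zero
    refine le_of_eq ((fin_wc ℚ _ _ ?_ ?_).2 h1)
    · exact mul_ne_zero (by exact_mod_cast hb) (pow_ne_zero 2 hNq)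
    · have e : ((a : ℚ) * (N : ℚ)) ^ 2 - 4 * ((b : ℚ) * (N : ℚ) ^ 2) =
          ((a ^ 2 - 4 * b : ℤ) : ℚ) * (N : ℚ) ^ 2 := by
        push_cast
        ring
      rw [e]
      exact mul_ne_zero (by exact_mod_cast hab) (pow_ne_zero 2 hNq)
  · intro k x hx
    refine @sha_K a b hb hab D n m hD hm (fun T N g hN e => (h T N g hN e).2) K _ _
      DivisionRing.toRatAlgebra r hr hgen _ ?_ k x hx
    refine ⟨one_ne_zero, ?_, ?_, ?_, ?_, ?_⟩ <;> simp [twE, wc]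

end Pool.Agent.U747.GE
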