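import Pool.Agent.U115.GE.StmF
import Pool.Agent.Y888.XD.Qf
import Pool.Agent.Y51.XD.Deg2
import Pool.Agent.Y421.XD.Rke
import Pool.Agent.Y153.XD.Sq

/-!
# The rank of the twists over multiquadratic number fields
-/

set_option autoImplicit false

open NumberField IsDedekindDomain WeierstrassCurve

namespace Pool.Agent.U747.GE

open Pool.Agent.Y682 (wc gc gc_isT)
open Pool.Agent.TH841.NF.D (rk)
open Pool.Agent.U115.GE (twE twE_eq S_MQF S_MQR)

/-- the twist by `c` over `K` -/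
def wg (a b c : ℤ) (K : Type) [Field K] : WeierstrassCurve K :=
  gc (a * c) (b * c ^ 2) K

lemma wg_ne {a b c : ℤ} (hb : b ≠ 0) (hab : a ^ 2 - 4 * b ≠ 0) (hc : c ≠ 0) :
    b * c ^ 2 ≠ 0 ∧ (a * c) ^ 2 - 4 * (b * c ^ 2) ≠ 0 := by
  have h2 : c ^ 2 ≠ 0 := pow_ne_zero 2 hc
  refine ⟨mul_ne_zero hb h2, ?_⟩
  have e1 : (a * c) ^ 2 - 4 * (b * c ^ 2) = (a ^ 2 - 4 * b) * c ^ 2 := by ring
  rw [e1]
  exact mul_ne_zero hab h2

/-- the rank over `F` of the twist by `c` -/
noncomputable def Rg (a b : ℤ) (F : Type) [Field F] [NumberField F] (c : ℤ) : ℕ :=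
  rk (wg a b c F)

variable {a b : ℤ}

lemma Rg_iso (hb : b ≠ 0) (hab : a ^ 2 - 4 * b ≠ 0) {K K' : Type} [Field K] [NumberField K]
    [Field K'] [NumberField K'] (e : K ≃+* K') {d : ℤ} (hd : d ≠ 0) :
    Rg a b K d = Rg a b K' d :=
  Pool.Agent.Y421.XD.s_rke K K' e _ _ (wg_ne hb hab hd).1 (wg_ne hb hab hd).2

lemma Rg_quad (hb : b ≠ 0) (hab : a ^ 2 - 4 * b ≠ 0) (F F' : IntermediateField ℚ ℂ)
    [NumberField F] [NumberField F'] {z : ℂ} {d : ℤ} (hd : d ≠ 0) (hz : z ∉ F)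
    (hz2 : z ^ 2 = (d : ℂ)) (hF' : F' = F ⊔ IntermediateField.adjoin ℚ {z}) {c : ℤ}
    (hc : c ≠ 0) : Rg a b F' c = Rg a b F c + Rg a b F (c * d) := by
  have hle : F ≤ F' := by rw [hF']; exact le_sup_left
  have hzF' : z ∈ F' := by
    rw [hF']
    exact (le_sup_right : _ ≤ F ⊔ IntermediateField.adjoin ℚ {z})
      (IntermediateField.mem_adjoin_simple_self ℚ z)
  let _ : Algebra F F' := (IntermediateField.inclusion hle).toRingHom.toAlgebra
  have h3 := Pool.Agent.Y888.XD.s_qf F F' (a * c) (b * c ^ 2) d (⟨z, hzF'⟩ : F')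
    (wg_ne hb hab hc).1 (wg_ne hb hab hc).2 hd (Subtype.ext (by
      show z ^ 2 = _
      rw [hz2]
      rfl)) (Pool.Agent.Y51.XD.s_deg2 F F' z d hz hz2 hle hF') (by
      intro x hx
      apply hz
      have h4 := congrArg (fun y : F' => (y : ℂ)) hx
      have h5 : (x : ℂ) = z := h4
      rw [← h5]
      exact x.2)
  unfold Rg wg
  rw [h3]
  congr 2
  · congr 1
    · ring
    · ring

/-- the field generated by the roots with indices in `S` -/
noncomputable def Gz {n : ℕ} (z : Fin n → ℂ) (S : Finset (Fin n)) : IntermediateField ℚ ℂ :=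
  IntermediateField.adjoin ℚ (z '' (S : Set (Fin n)))

lemma Gz_empty {n : ℕ} (z : Fin n → ℂ) : Gz z ∅ = ⊥ := by
  unfold Gz
  rw [Finset.coe_empty, Set.image_empty, IntermediateField.adjoin_empty]

lemma Gz_insert {n : ℕ} (z : Fin n → ℂ) (S : Finset (Fin n)) (i : Fin n) :
    Gz z (insert i S) = Gz z S ⊔ IntermediateField.adjoin ℚ {z i} := by
  unfold Gz
  rw [Finset.coe_insert, Set.image_insert_eq, ← IntermediateField.adjoin_union,
    Set.union_singleton]

theorem Rg_Gz (hb : b ≠ 0) (hab : a ^ 2 - 4 * b ≠ 0) {n : ℕ} (z : Fin n → ℂ) (m : Fin n → ℕ)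
    (hm : ∀ i, m i ≠ 0) (hz : ∀ i, z i ^ 2 = (m i : ℂ)) (S : Finset (Fin n)) :
    FiniteDimensional ℚ (Gz z S) ∧
    ∀ (F₀ : IntermediateField ℚ ℂ) [NumberField F₀], F₀ = Gz z S → ∀ c : ℤ, c ≠ 0 →
      Rg a b F₀ c ≤ ∑ T ∈ S.powerset, Rg a b ℚ (c * ((∏ i ∈ T, m i : ℕ) : ℤ)) := by
  classical
  induction S using Finset.induction_on with
  | empty =>
    refine ⟨?_, ?_⟩
    · rw [Gz_empty]; infer_instance
    · intro F₀ _ hF₀ c hc
      rw [Gz_empty] at hF₀
      subst hF₀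
      have hq : Rg a b ℚ c = Rg a b (⊥ : IntermediateField ℚ ℂ) c :=
        Rg_iso hb hab (IntermediateField.botEquiv ℚ ℂ).symm.toRingEquiv hc
      rw [← hq]
      simp
  | insert i S hiS ih =>
    obtain ⟨hfd, ih'⟩ := ih
    have hdZ : (m i : ℤ) ≠ 0 := by exact_mod_cast hm i
    have hins := Gz_insert z S i
    have hG₀ : NumberField (Gz z S) :=
      { to_charZero := inferInstance, to_finiteDimensional := hfd }
    by_cases hz0 : z i ∈ Gz z S
    · have hins' : Gz z (insert i S) = Gz z S := by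
        rw [hins]
        exact sup_eq_left.2 ((IntermediateField.adjoin_simple_le_iff).2 hz0)
      rw [hins']
      refine ⟨hfd, fun F₀ _ hF₀ c hc => (ih' F₀ hF₀ c hc).trans ?_⟩
      exact Finset.sum_le_sum_of_subset (Finset.powerset_mono.2 (Finset.subset_insert _ _))
    · refine ⟨?_, ?_⟩
      · rw [hins]
        have : FiniteDimensional ℚ (IntermediateField.adjoin ℚ {z i} : IntermediateField ℚ ℂ) :=
          IntermediateField.adjoin.finiteDimensional ⟨Polynomial.X ^ 2 - Polynomial.C (m i : ℚ),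
            Polynomial.monic_X_pow_sub_C _ (by norm_num), by
              rw [Polynomial.eval₂_sub, Polynomial.eval₂_pow, Polynomial.eval₂_X,
                Polynomial.eval₂_C, hz i, map_natCast, sub_self]⟩
        exact IntermediateField.finiteDimensional_sup _ _
      · intro F₀ _ hF₀ c hc
        rw [Rg_quad hb hab (Gz z S) F₀ hdZ hz0 (by rw [hz i, Int.cast_natCast])
          (hF₀.trans hins) hc, Finset.sum_powerset_insert hiS]
        refine add_le_add (ih' (Gz z S) rfl c hc) ?_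
        refine (ih' (Gz z S) rfl (c * m i) (mul_ne_zero hc hdZ)).trans (le_of_eq ?_)
        refine Finset.sum_congr rfl fun T hT => ?_
        have hiT : i ∉ T := fun h => hiS (Finset.mem_powerset.1 hT h)
        rw [Finset.prod_insert hiT]
        congr 1
        push_cast
        ring

/-- the rank over an abstract multiquadratic field -/
theorem Rg_le (hb : b ≠ 0) (hab : a ^ 2 - 4 * b ≠ 0) {n : ℕ} (m : Fin n → ℕ)
    (hm : ∀ i, m i ≠ 0) (K : Type) [Field K] [NumberField K] (r : Fin n → K)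
    (hr : ∀ i, r i ^ 2 = (m i : K)) (hgen : IntermediateField.adjoin ℚ (Set.range r) = ⊤)
    {c : ℤ} (hc : c ≠ 0) :
    Rg a b K c ≤ ∑ T : Finset (Fin n), Rg a b ℚ (c * ((∏ i ∈ T, m i : ℕ) : ℤ)) := by
  classical
  let φ : K →ₐ[ℚ] ℂ := IsAlgClosed.lift
  have hz : ∀ i, (φ (r i)) ^ 2 = (m i : ℂ) := by
    intro i
    rw [← map_pow, hr, map_natCast]
  have hF : φ.fieldRange = Gz (fun i => φ (r i)) Finset.univ := by
    unfold Gz
    rw [AlgHom.fieldRange_eq_map, ← hgen, IntermediateField.adjoin_map, Finset.coe_univ,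
      Set.image_univ, ← Set.range_comp]
    rfl
  obtain ⟨hfd, h⟩ := Rg_Gz hb hab (fun i => φ (r i)) m hm hz Finset.univ
  have hN : NumberField (Gz (fun i => φ (r i)) Finset.univ) :=
    { to_charZero := inferInstance, to_finiteDimensional := hfd }
  have e : K ≃+* Gz (fun i => φ (r i)) Finset.univ := by
    rw [← hF]
    exact (AlgEquiv.ofInjectiveField φ).toRingEquiv
  rw [Rg_iso hb hab e hc]
  have := h _ rfl c hc
  rwa [Finset.powerset_univ] at this

theorem wc_gc (a b : ℤ) (D : ℕ) (K : Type) [Field K] :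
    wc ((a : K) * (D : K)) ((b : K) * (D : K) ^ 2) = wg a b D K := by
  unfold wg wc gc
  push_cast
  rfl

theorem Rg_sq (hb : b ≠ 0) (hab : a ^ 2 - 4 * b ≠ 0) {N g : ℕ} {c : ℤ} (hN : N ≠ 0)
    (hg : g ≠ 0) (h : ((N * g ^ 2 : ℕ) : ℤ) = c) : Rg a b ℚ c = rk (twE a b N) := by
  have hNZ : (N : ℤ) ≠ 0 := by exact_mod_cast hN
  have hgZ : (g : ℤ) ≠ 0 := by exact_mod_cast hg
  have h2 := Pool.Agent.Y153.XD.s_sq ℚ (a * (N : ℤ)) (b * (N : ℤ) ^ 2) (g : ℤ)
    (wg_ne hb hab hNZ).1 (wg_ne hb hab hNZ).2 hgZ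
  have e1 : a * (N : ℤ) * (g : ℤ) ^ 2 = a * c := by
    rw [← h]
    push_cast
    ring
  have e2 : b * (N : ℤ) ^ 2 * (g : ℤ) ^ 4 = b * c ^ 2 := by
    rw [← h]
    push_cast
    ring
  rw [e1, e2] at h2
  have e3 : twE a b N = wg a b N ℚ := wc_gc a b N ℚ
  rw [e3]
  exact h2

/-- **the rank over a multiquadratic field** -/
theorem t_MQR : S_MQR := by
  intro a b D n m hb hab hD hm ρ hρ K _ _ r hr hgen
  have hDZ : (D : ℤ) ≠ 0 := by exact_mod_cast hD
  rw [wc_gc]
  refine (Rg_le hb hab m hm K r hr hgen hDZ).trans (Finset.sum_le_sum fun T _ => ?_)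
  have h0 : D * ∏ i ∈ T, m i ≠ 0 :=
    mul_ne_zero hD (Finset.prod_ne_zero_iff.2 fun i _ => hm i)
  obtain ⟨N, g, hNg, hN⟩ := Nat.sq_mul_squarefree (D * ∏ i ∈ T, m i)
  have e : N * g ^ 2 = D * ∏ i ∈ T, m i := by rw [← hNg, mul_comm]
  have hg : g ≠ 0 := by
    rintro rfl
    apply h0
    rw [← e]
    simp
  rw [Rg_sq hb hab hN.ne_zero hg (by rw [e]; push_cast; rfl)]
  exact hρ T N g hN e

end Pool.Agent.U747.GE
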